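import Mathlib

/-!
# Stable sets on a cycle
-/

set_option autoImplicit false

open Finset

namespace Pool.Agent.Q110.SK

/-- `A` is a set of `k` points of the cycle `1, …, n`, any two at cyclic distance at least `s`. -/
structure IsStable (s k n : ℕ) (A : Finset ℕ) : Prop where
  sub : A ⊆ Icc 1 n
  card : A.card = k
  gap : ∀ a ∈ A, ∀ b ∈ A, a < b → a + s ≤ b ∧ b + s ≤ a + n

/-- increasing enumerations of stable sets -/
structure St (s k n : ℕ) (a : ℕ → ℕ) : Prop where
  pos : 1 ≤ a 0
  step : ∀ i, i + 1 < k → a i + s ≤ a (i + 1)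
  le : a (k - 1) ≤ n
  wrap : a (k - 1) + s ≤ a 0 + n

/-- the set of the first `k` values -/
def W (k : ℕ) (a : ℕ → ℕ) : Finset ℕ := (range k).image a

theorem mem_W {k : ℕ} {a : ℕ → ℕ} {x : ℕ} : x ∈ W k a ↔ ∃ i < k, a i = x := by
  simp [W]

theorem W_congr {k : ℕ} {a b : ℕ → ℕ} (h : ∀ i < k, a i = b i) : W k a = W k b := by
  apply image_congr
  intro i hi
  exact h i (by simpa using hi)

theorem step_lt {s k : ℕ} {a : ℕ → ℕ} (h : ∀ i, i + 1 < k → a i + s ≤ a (i + 1)) {i j : ℕ}
    (hij : i < j) (hj : j < k) : a i + s ≤ a j := by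
  induction j with
  | zero => omega
  | succ j ih =>
    have h1 := h j hj
    rcases Nat.lt_or_ge i j with h2 | h2
    · have := ih h2 (by omega)
      omega
    · have : i = j := by omega
      rw [this]
      exact h1

theorem step_le' {s k : ℕ} {a : ℕ → ℕ} (h : ∀ i, i + 1 < k → a i + s ≤ a (i + 1)) {i j : ℕ}
    (hij : i ≤ j) (hj : j < k) : a i ≤ a j := by
  rcases Nat.lt_or_ge i j with h1 | h1
  · have := step_lt h h1 hj
    omega
  · have : i = j := by omega
    rw [this]

theorem St.isStable {s k n : ℕ} {a : ℕ → ℕ} (h : St s k n a) (hs : 1 ≤ s) (hk : 1 ≤ k) :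
    IsStable s k n (W k a) := by
  refine ⟨?_, ?_, ?_⟩
  · intro x hx
    obtain ⟨i, hi, rfl⟩ := mem_W.1 hx
    rw [mem_Icc]
    have h1 := step_le' h.step (Nat.zero_le i) hi
    have h2 := step_le' h.step (show i ≤ k - 1 by omega) (by omega)
    have h3 := h.pos
    have h4 := h.le
    omega
  · rw [W, card_image_of_injOn, card_range]
    intro i hi j hj hij
    have hi := mem_range.1 (mem_coe.1 hi)
    have hj := mem_range.1 (mem_coe.1 hj)
    have hij : a i = a j := hij
    by_contra hne
    rcases Nat.lt_or_ge i j with h1 | h1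
    · have := step_lt h.step h1 hj; omega
    · have := step_lt h.step (show j < i by omega) hi; omega
  · intro x hx y hy hxy
    obtain ⟨i, hi, rfl⟩ := mem_W.1 hx
    obtain ⟨j, hj, rfl⟩ := mem_W.1 hy
    have hij : i < j := by
      by_contra hc
      have := step_le' h.step (show j ≤ i by omega) hi
      omega
    refine ⟨step_lt h.step hij hj, ?_⟩
    have h1 := step_le' h.step (Nat.zero_le i) hi
    have h2 := step_le' h.step (show j ≤ k - 1 by omega) (by omega)
    have h3 := h.wrap
    omega

theorem IsStable.exists_seq {s k n : ℕ} {A : Finset ℕ} (h : IsStable s k n A) (hk : 1 ≤ k)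
    (hn : s ≤ n) : ∃ a : ℕ → ℕ, St s k n a ∧ A = W k a := by
  set e := A.orderEmbOfFin h.card with he
  have hmem : ∀ i : Fin k, e i ∈ A := fun i => A.orderEmbOfFin_mem h.card i
  set a : ℕ → ℕ := fun i => if hi : i < k then e ⟨i, hi⟩ else 0 with ha
  have hai : ∀ i (hi : i < k), a i = e ⟨i, hi⟩ := fun i hi => by simp [ha, hi]
  refine ⟨a, ⟨?_, ?_, ?_, ?_⟩, ?_⟩
  · rw [hai 0 (by omega)]
    exact (mem_Icc.1 (h.sub (hmem _))).1
  · intro i hi
    rw [hai i (by omega), hai (i + 1) hi]
    exact (h.gap _ (hmem _) _ (hmem _) (e.strictMono (by simp))).1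
  · rw [hai (k - 1) (by omega)]
    exact (mem_Icc.1 (h.sub (hmem _))).2
  · rw [hai 0 (by omega), hai (k - 1) (by omega)]
    rcases Nat.lt_or_ge 1 k with h1 | h1
    · exact (h.gap _ (hmem _) _ (hmem _) (e.strictMono (by simp; omega))).2
    · have : k = 1 := by omega
      subst this
      simp only [Nat.sub_self]
      omega
  · ext x
    rw [mem_W]
    constructor
    · intro hx
      have : x ∈ Set.range e := by
        rw [A.range_orderEmbOfFin h.card]; exact hx
      obtain ⟨i, rfl⟩ := this
      exact ⟨i, i.2, hai i i.2⟩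
    · rintro ⟨i, hi, rfl⟩
      rw [hai i hi]
      exact hmem _

theorem inter_disjoint {s k : ℕ} {a b : ℕ → ℕ} (ha : ∀ i, i + 1 < k → a i + s ≤ a (i + 1))
    (hb : ∀ i, i + 1 < k → b i + s ≤ b (i + 1)) (h1 : ∀ i < k, a i < b i)
    (h2 : ∀ i, i + 1 < k → b i < a (i + 1)) : Disjoint (W k a) (W k b) := by
  rw [disjoint_left]
  intro x hx hy
  obtain ⟨i, hi, rfl⟩ := mem_W.1 hx
  obtain ⟨j, hj, hij⟩ := mem_W.1 hy
  rcases Nat.lt_or_ge j i with h | h
  · have h3 := h2 j (by omega)
    have h4 := step_le' ha (show j + 1 ≤ i by omega) hi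
    omega
  · have h3 := step_le' hb h hj
    have h4 := h1 i hi
    omega

theorem IsStable.mono {s k m n : ℕ} {A : Finset ℕ} (h : IsStable s k m A) (hmn : m ≤ n) :
    IsStable s k n A := by
  refine ⟨fun x hx => ?_, h.card, fun a ha b hb hab => ?_⟩
  · have := mem_Icc.1 (h.sub hx)
    rw [mem_Icc]; omega
  · have := h.gap a ha b hb hab
    omega

/-- Every stable set of the cycle of length `m` which does not contain `m` is disjoint from one that
contains `m`. -/
theorem nb {s k m : ℕ} {b : ℕ → ℕ} (hs : 2 ≤ s) (hk : 1 ≤ k) (h : St s k m b) (hm : b (k - 1) < m) :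
    ∃ c : ℕ → ℕ, St s k m c ∧ c (k - 1) = m ∧ Disjoint (W k b) (W k c) := by
  have hpos := h.pos
  have hwrap := h.wrap
  obtain ⟨r, hr⟩ : ∃ r, r = max 1 (s - b 0) := ⟨_, rfl⟩
  have hr1 : 1 ≤ r := by omega
  have hr2 : r < s := by omega
  have hr3 : s ≤ b 0 + r := by omega
  have hr4 : 1 < k → b (k - 2) + r + s ≤ m := by
    intro hk1
    have h1 := h.step (k - 2) (by omega)
    have e : k - 2 + 1 = k - 1 := by omega
    rw [e] at h1
    omega
  have hst : ∀ i, i + 1 < k →
      (if i = k - 1 then m else b i + r) + s ≤ (if i + 1 = k - 1 then m else b (i + 1) + r) := by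
    intro i hi
    have h1 := h.step i hi
    rw [if_neg (by omega : ¬ i = k - 1)]
    by_cases hc : i + 1 = k - 1
    · rw [if_pos hc]
      have := hr4 (by omega)
      have e : i = k - 2 := by omega
      rw [e]
      exact this
    · rw [if_neg hc]
      omega
  refine ⟨fun i => if i = k - 1 then m else b i + r, ⟨?_, hst, ?_, ?_⟩, ?_, ?_⟩
  · show 1 ≤ if 0 = k - 1 then m else b 0 + r
    split_ifs <;> omega
  · simp
  · show (if k - 1 = k - 1 then m else b (k - 1) + r) + s ≤ (if 0 = k - 1 then m else b 0 + r) + m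
    rw [if_pos rfl]
    by_cases hc : 0 = k - 1
    · rw [if_pos hc]
      rw [← hc] at hwrap
      omega
    · rw [if_neg hc]
      omega
  · simp
  · apply inter_disjoint h.step hst
    · intro i hi
      show b i < if i = k - 1 then m else b i + r
      by_cases hc : i = k - 1
      · rw [if_pos hc, hc]; exact hm
      · rw [if_neg hc]; omega
    · intro i hi
      show (if i = k - 1 then m else b i + r) < b (i + 1)
      have := h.step i hi
      rw [if_neg (by omega)]
      omega

/-- One step towards the canonical set. -/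
theorem tstep {s k m : ℕ} {a : ℕ → ℕ} (hs : 2 ≤ s) (hk : 2 ≤ k) (h : St s k m a)
    (ham : a (k - 1) = m) :
    ∃ b c : ℕ → ℕ, St s k m b ∧ b 0 = 1 ∧ b (k - 1) = m + 1 - s ∧ St s k m c ∧ c (k - 1) = m ∧
      Disjoint (W k a) (W k b) ∧ Disjoint (W k b) (W k c) ∧
      (∀ i, i < k - 1 → c i = if i = 0 then s else a (i - 1) + s) := by
  have hwrap := h.wrap
  rw [ham] at hwrap
  have ha0 : s ≤ a 0 := by omega
  have hlast : a (k - 2) + s ≤ m := by
    have := h.step (k - 2) (by omega)
    have e : k - 2 + 1 = k - 1 := by omega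
    rw [e, ham] at this
    exact this
  have hms : 2 * s ≤ m := by
    have := step_le' h.step (Nat.zero_le (k - 2)) (by omega)
    omega
  -- b
  have hb : ∀ i, i + 1 < k → (if i = k - 1 then m + 1 - s else if i = 0 then 1 else a (i - 1) + 1) + s ≤
      (if i + 1 = k - 1 then m + 1 - s else if i + 1 = 0 then 1 else a (i + 1 - 1) + 1) := by
    intro i hi
    rw [if_neg (by omega : ¬ i = k - 1), if_neg (by omega : ¬ i + 1 = 0), Nat.add_sub_cancel]
    by_cases hc : i + 1 = k - 1
    · rw [if_pos hc]
      by_cases hi0 : i = 0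
      · rw [if_pos hi0]; omega
      · rw [if_neg hi0]
        have h1 := h.step (i - 1) (by omega)
        have e : i - 1 + 1 = i := by omega
        have e2 : i = k - 2 := by omega
        rw [e, e2] at h1
        rw [e2]
        omega
    · rw [if_neg hc]
      by_cases hi0 : i = 0
      · rw [if_pos hi0, hi0]; omega
      · rw [if_neg hi0]
        have h1 := h.step (i - 1) (by omega)
        have e : i - 1 + 1 = i := by omega
        rw [e] at h1
        omega
  -- c
  have hc : ∀ i, i + 1 < k → (if i = k - 1 then m else if i = 0 then s else a (i - 1) + s) + s ≤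
      (if i + 1 = k - 1 then m else if i + 1 = 0 then s else a (i + 1 - 1) + s) := by
    intro i hi
    rw [if_neg (by omega : ¬ i = k - 1), if_neg (by omega : ¬ i + 1 = 0), Nat.add_sub_cancel]
    by_cases hc : i + 1 = k - 1
    · rw [if_pos hc]
      by_cases hi0 : i = 0
      · rw [if_pos hi0]; omega
      · rw [if_neg hi0]
        have h1 := h.step (i - 1) (by omega)
        have e : i - 1 + 1 = i := by omega
        have e2 : i = k - 2 := by omega
        rw [e, e2] at h1
        rw [e2]
        omega
    · rw [if_neg hc]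
      by_cases hi0 : i = 0
      · rw [if_pos hi0, hi0]; omega
      · rw [if_neg hi0]
        have h1 := h.step (i - 1) (by omega)
        have e : i - 1 + 1 = i := by omega
        rw [e] at h1
        omega
  refine ⟨fun i => if i = k - 1 then m + 1 - s else if i = 0 then 1 else a (i - 1) + 1,
    fun i => if i = k - 1 then m else if i = 0 then s else a (i - 1) + s,
    ⟨?_, hb, ?_, ?_⟩, ?_, ?_, ⟨?_, hc, ?_, ?_⟩, ?_, ?_, ?_, ?_⟩
  · show 1 ≤ if 0 = k - 1 then m + 1 - s else if 0 = 0 then 1 else a (0 - 1) + 1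
    rw [if_neg (by omega : ¬ 0 = k - 1), if_pos rfl]
  · show (if k - 1 = k - 1 then m + 1 - s else if k - 1 = 0 then 1 else a (k - 1 - 1) + 1) ≤ m
    rw [if_pos rfl]; omega
  · show (if k - 1 = k - 1 then m + 1 - s else if k - 1 = 0 then 1 else a (k - 1 - 1) + 1) + s ≤
      (if 0 = k - 1 then m + 1 - s else if 0 = 0 then 1 else a (0 - 1) + 1) + m
    rw [if_pos rfl, if_neg (by omega : ¬ 0 = k - 1), if_pos rfl]; omega
  · show (if 0 = k - 1 then m + 1 - s else if 0 = 0 then 1 else a (0 - 1) + 1) = 1
    rw [if_neg (by omega : ¬ 0 = k - 1), if_pos rfl]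
  · simp
  · show 1 ≤ if 0 = k - 1 then m else if 0 = 0 then s else a (0 - 1) + s
    rw [if_neg (by omega : ¬ 0 = k - 1), if_pos rfl]; omega
  · simp
  · show (if k - 1 = k - 1 then m else if k - 1 = 0 then s else a (k - 1 - 1) + s) + s ≤
      (if 0 = k - 1 then m else if 0 = 0 then s else a (0 - 1) + s) + m
    rw [if_pos rfl, if_neg (by omega : ¬ 0 = k - 1), if_pos rfl]; omega
  · simp
  · rw [disjoint_comm]
    apply inter_disjoint hb h.step
    · intro i hi
      show (if i = k - 1 then m + 1 - s else if i = 0 then 1 else a (i - 1) + 1) < a i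
      by_cases hi1 : i = k - 1
      · rw [if_pos hi1, hi1, ham]; omega
      · rw [if_neg hi1]
        by_cases hi0 : i = 0
        · rw [if_pos hi0, hi0]; omega
        · rw [if_neg hi0]
          have h1 := h.step (i - 1) (by omega)
          have e : i - 1 + 1 = i := by omega
          rw [e] at h1
          omega
    · intro i hi
      show a i < if i + 1 = k - 1 then m + 1 - s else if i + 1 = 0 then 1 else a (i + 1 - 1) + 1
      rw [if_neg (by omega : ¬ i + 1 = 0), Nat.add_sub_cancel]
      by_cases hi1 : i + 1 = k - 1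
      · rw [if_pos hi1]
        have e : i = k - 2 := by omega
        rw [e]; omega
      · rw [if_neg hi1]; omega
  · apply inter_disjoint hb hc
    · intro i hi
      show (if i = k - 1 then m + 1 - s else if i = 0 then 1 else a (i - 1) + 1) <
        (if i = k - 1 then m else if i = 0 then s else a (i - 1) + s)
      split_ifs <;> omega
    · intro i hi
      have h1 := hb i hi
      show (if i = k - 1 then m else if i = 0 then s else a (i - 1) + s) <
        if i + 1 = k - 1 then m + 1 - s else if i + 1 = 0 then 1 else a (i + 1 - 1) + 1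
      rw [if_neg (by omega : ¬ i = k - 1)] at h1 ⊢
      refine lt_of_lt_of_le ?_ h1
      split_ifs <;> omega
  · intro i hi
    show (if i = k - 1 then m else if i = 0 then s else a (i - 1) + s) = _
    rw [if_neg (by omega)]

end Pool.Agent.Q110.SK
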