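import Mathlib
import Pool.Agent.Q110.SK.Seq

/-!
# Clique minors in stable Kneser graphs
-/

set_option autoImplicit false

open Finset

namespace Pool.Agent.Q110.SK

/-- The `s`-stable Kneser graph. -/
def SK (s k n : ℕ) : SimpleGraph {A : Finset ℕ // IsStable s k n A} where
  Adj A B := A ≠ B ∧ Disjoint A.1 B.1
  symm := ⟨fun _ _ h => ⟨h.1.symm, h.2.symm⟩⟩
  loopless := ⟨fun _ h => h.1 rfl⟩

theorem adj_of {s k n : ℕ} (hk : 1 ≤ k) {A B : {A : Finset ℕ // IsStable s k n A}}
    (h : Disjoint A.1 B.1) : (SK s k n).Adj A B := by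
  refine ⟨?_, h⟩
  rintro rfl
  have h1 := A.2.card
  rw [disjoint_self_iff_empty] at h
  rw [h, card_empty] at h1
  omega

/-- the new vertices at level `m` -/
def InX (s k m : ℕ) (A : Finset ℕ) : Prop := IsStable s k m A ∧ ¬ IsStable s k (m - 1) A

theorem inX_of_mem {s k m : ℕ} {A : Finset ℕ} (h : IsStable s k m A) (hm : m ∈ A) : InX s k m A := by
  refine ⟨h, fun h' => ?_⟩
  have h1 := mem_Icc.1 (h.sub hm)
  have h2 := mem_Icc.1 (h'.sub hm)
  omega

/-- the canonical set -/
def can (s k m : ℕ) : ℕ → ℕ := fun i => if i = k - 1 then m else (i + 1) * s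

theorem can_st {s k m : ℕ} (hs : 1 ≤ s) (hk : 1 ≤ k) (hm : s * k ≤ m) : St s k m (can s k m) := by
  have hk0 : s * k = s * (k - 1) + s := by
    obtain ⟨j, rfl⟩ : ∃ j, k = j + 1 := ⟨k - 1, by omega⟩
    simp only [Nat.add_sub_cancel]; ring
  refine ⟨?_, ?_, ?_, ?_⟩
  · show 1 ≤ if 0 = k - 1 then m else (0 + 1) * s
    split_ifs
    · nlinarith
    · omega
  · intro i hi
    show (if i = k - 1 then m else (i + 1) * s) + s ≤ if i + 1 = k - 1 then m else (i + 1 + 1) * s
    rw [if_neg (by omega : ¬ i = k - 1)]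
    by_cases hc : i + 1 = k - 1
    · rw [if_pos hc, hc]
      calc (k - 1) * s + s = s * k := by rw [hk0]; ring
        _ ≤ m := hm
    · rw [if_neg hc]
      apply le_of_eq; ring
  · show (if k - 1 = k - 1 then m else (k - 1 + 1) * s) ≤ m
    rw [if_pos rfl]
  · show (if k - 1 = k - 1 then m else (k - 1 + 1) * s) + s ≤ (if 0 = k - 1 then m else (0 + 1) * s) + m
    rw [if_pos rfl]
    by_cases hc : 0 = k - 1
    · rw [if_pos hc]
      rw [← hc] at hk0
      omega
    · rw [if_neg hc]; omega

theorem can_inX {s k m : ℕ} (hs : 1 ≤ s) (hk : 1 ≤ k) (hm : s * k ≤ m) : InX s k m (W k (can s k m)) := by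
  apply inX_of_mem ((can_st hs hk hm).isStable hs hk)
  exact mem_W.2 ⟨k - 1, by omega, by simp [can]⟩

/-- the branch set -/
def X (s k n m : ℕ) : Set {A : Finset ℕ // IsStable s k n A} := {v | InX s k m v.1}

theorem reach {s k m n : ℕ} (hs : 2 ≤ s) (hk : 1 ≤ k) (hm : s * k < m) (hmn : m ≤ n)
    (d : ℕ) : ∀ (j : ℕ) (a : ℕ → ℕ), j + d = k - 1 → St s k m a → a (k - 1) = m →
      (∀ i, i < j → i < k - 1 → a i = (i + 1) * s) → ∀ hA : InX s k m (W k a),
      ((SK s k n).induce (X s k n m)).Reachable ⟨⟨W k a, hA.1.mono hmn⟩, hA⟩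
        ⟨⟨W k (can s k m), (can_inX (by omega) hk hm.le).1.mono hmn⟩, can_inX (by omega) hk hm.le⟩ := by
  induction d with
  | zero =>
    intro j a hj ha ham hag hA
    have e : W k a = W k (can s k m) := by
      apply W_congr
      intro i hi
      by_cases hc : i = k - 1
      · rw [hc, ham]; simp [can]
      · rw [hag i (by omega) (by omega)]; simp [can, hc]
    have e2 : (⟨⟨W k a, hA.1.mono hmn⟩, hA⟩ : X s k n m) =
        ⟨⟨W k (can s k m), (can_inX (by omega) hk hm.le).1.mono hmn⟩, can_inX (by omega) hk hm.le⟩ := by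
      apply Subtype.ext
      apply Subtype.ext
      exact e
    rw [e2]
  | succ d ih =>
    intro j a hj ha ham hag hA
    have hk2 : 2 ≤ k := by omega
    obtain ⟨b, c, hb, hb0, hbk, hc, hck, hab, hbc, hcf⟩ := tstep hs hk2 ha ham
    have hbs := hb.isStable (by omega : 1 ≤ s) hk
    have hcs := hc.isStable (by omega : 1 ≤ s) hk
    have hC : InX s k m (W k c) := inX_of_mem hcs (mem_W.2 ⟨k - 1, by omega, hck⟩)
    have hm2 : s < m := by
      have : s * 1 ≤ s * k := Nat.mul_le_mul_left _ hk
      omega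
    have hB : InX s k m (W k b) := by
      refine ⟨hbs, fun h' => ?_⟩
      have h1 : 1 ∈ W k b := mem_W.2 ⟨0, by omega, hb0⟩
      have h2 : m + 1 - s ∈ W k b := mem_W.2 ⟨k - 1, by omega, hbk⟩
      have h3 := (h'.gap 1 h1 _ h2 (by omega)).2
      omega
    have s1 : ((SK s k n).induce (X s k n m)).Reachable ⟨⟨W k a, hA.1.mono hmn⟩, hA⟩
        ⟨⟨W k b, hB.1.mono hmn⟩, hB⟩ := by
      apply SimpleGraph.Adj.reachable
      rw [SimpleGraph.induce_adj]
      exact adj_of hk hab
    have s2 : ((SK s k n).induce (X s k n m)).Reachable ⟨⟨W k b, hB.1.mono hmn⟩, hB⟩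
        ⟨⟨W k c, hC.1.mono hmn⟩, hC⟩ := by
      apply SimpleGraph.Adj.reachable
      rw [SimpleGraph.induce_adj]
      exact adj_of hk hbc
    refine (s1.trans s2).trans (ih (j + 1) c (by omega) hc hck ?_ hC)
    intro i hi hik
    rw [hcf i hik]
    by_cases hi0 : i = 0
    · rw [if_pos hi0, hi0]; ring
    · rw [if_neg hi0, hag (i - 1) (by omega) (by omega)]
      have e : i - 1 + 1 = i := by omega
      rw [e]; ring

/-- Every vertex of level less than `m` or in `X m` without `m` has a neighbour containing `m`. -/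
theorem exists_nb {s k m : ℕ} (hs : 2 ≤ s) (hk : 1 ≤ k) (hm : s * k < m) {A : Finset ℕ}
    (hA : IsStable s k m A) (hmA : m ∉ A) : ∃ c, St s k m c ∧ c (k - 1) = m ∧ Disjoint A (W k c) := by
  have hsm : s ≤ m := by
    have : s * 1 ≤ s * k := Nat.mul_le_mul_left _ hk
    omega
  obtain ⟨a, ha, rfl⟩ := hA.exists_seq hk hsm
  have h1 : a (k - 1) ≠ m := fun h => hmA (mem_W.2 ⟨k - 1, by omega, h⟩)
  have h2 := ha.le
  obtain ⟨c, hc, hcm, hd⟩ := nb hs hk ha (by omega)
  exact ⟨c, hc, hcm, hd⟩

theorem X_connected {s k m n : ℕ} (hs : 2 ≤ s) (hk : 1 ≤ k) (hm : s * k < m) (hmn : m ≤ n) :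
    ((SK s k n).induce (X s k n m)).Connected := by
  haveI : Nonempty (X s k n m) :=
    ⟨⟨⟨W k (can s k m), (can_inX (by omega) hk hm.le).1.mono hmn⟩, can_inX (by omega) hk hm.le⟩⟩
  have hsm : s ≤ m := by
    have : s * 1 ≤ s * k := Nat.mul_le_mul_left _ hk
    omega
  have key : ∀ v : X s k n m, ((SK s k n).induce (X s k n m)).Reachable v
      ⟨⟨W k (can s k m), (can_inX (by omega) hk hm.le).1.mono hmn⟩, can_inX (by omega) hk hm.le⟩ := by
    have base : ∀ (c : ℕ → ℕ) (hc : St s k m c) (hcm : c (k - 1) = m) (hC : InX s k m (W k c)),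
        ((SK s k n).induce (X s k n m)).Reachable ⟨⟨W k c, hC.1.mono hmn⟩, hC⟩
          ⟨⟨W k (can s k m), (can_inX (by omega) hk hm.le).1.mono hmn⟩, can_inX (by omega) hk hm.le⟩ :=
      fun c hc hcm hC => reach hs hk hm hmn (k - 1) 0 c (by omega) hc hcm (by intro i hi; omega) hC
    rintro ⟨⟨A, hAn⟩, hAX⟩
    have hAX' : InX s k m A := hAX
    by_cases hmA : m ∈ A
    · obtain ⟨a, ha, rfl⟩ := hAX'.1.exists_seq hk hsm
      have ham : a (k - 1) = m := by
        obtain ⟨i, hi, him⟩ := mem_W.1 hmA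
        have h1 := step_le' ha.step (show i ≤ k - 1 by omega) (by omega)
        have h2 := ha.le
        omega
      exact base a ha ham hAX'
    · obtain ⟨c, hc, hcm, hd⟩ := exists_nb hs hk hm hAX'.1 hmA
      have hC : InX s k m (W k c) := inX_of_mem (hc.isStable (by omega) hk)
        (mem_W.2 ⟨k - 1, by omega, hcm⟩)
      refine SimpleGraph.Reachable.trans ?_ (base c hc hcm hC)
      apply SimpleGraph.Adj.reachable
      rw [SimpleGraph.induce_adj]
      exact adj_of hk hd
  exact SimpleGraph.Connected.mk (fun u v => (key u).trans (key v).symm)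

/-- **Dominating clique models.** -/
theorem model {s k n : ℕ} (hs : 2 ≤ s) (hk : 1 ≤ k) (hn : s * k ≤ n) :
    ∃ f : Fin (n - s * (k - 1)) → Set {A : Finset ℕ // IsStable s k n A},
      (∀ i, ((SK s k n).induce (f i)).Connected) ∧ (∀ i j, i ≠ j → Disjoint (f i) (f j)) ∧
      (∀ i j, i < j → ∀ u ∈ f i, ∃ v ∈ f j, (SK s k n).Adj u v) := by
  have hk0 : s * k = s * (k - 1) + s := by
    obtain ⟨j, rfl⟩ : ∃ j, k = j + 1 := ⟨k - 1, by omega⟩
    simp only [Nat.add_sub_cancel]; ring
  -- the bottom clique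
  have hbot : ∀ i, i < s → St s k (s * k) (fun l => i + 1 + l * s) := by
    intro i hi
    refine ⟨by simp, ?_, ?_, ?_⟩
    · intro l _
      apply le_of_eq; ring
    · show i + 1 + (k - 1) * s ≤ s * k
      rw [hk0, mul_comm (k - 1) s]; omega
    · show i + 1 + (k - 1) * s + s ≤ i + 1 + 0 * s + s * k
      rw [hk0, mul_comm (k - 1) s]; omega
  set T : ℕ → Finset ℕ := fun i => W k (fun l => i + 1 + l * s) with hT
  have hTst : ∀ i, i < s → IsStable s k (s * k) (T i) := fun i hi => (hbot i hi).isStable (by omega) hk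
  have hTd : ∀ i j, i < j → j < s → Disjoint (T i) (T j) := by
    intro i j hij hj
    apply inter_disjoint (s := s) (hbot i (by omega)).step (hbot j hj).step
    · intro l _; show i + 1 + l * s < j + 1 + l * s; omega
    · intro l _
      show j + 1 + l * s < i + 1 + (l + 1) * s
      have : (l + 1) * s = l * s + s := by ring
      omega
  set f : Fin (n - s * (k - 1)) → Set {A : Finset ℕ // IsStable s k n A} := fun i =>
    if i.1 < s then {v | v.1 = T i.1} else X s k n (s * k + (i.1 + 1 - s)) with hf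
  -- upper bound of the level
  have hup : ∀ i, ∀ v ∈ f i, IsStable s k (s * k + (i.1 + 1 - s)) v.1 := by
    intro i v hv
    simp only [hf] at hv
    by_cases hi : i.1 < s
    · rw [if_pos hi] at hv
      have hv' : v.1 = T i.1 := hv
      rw [hv']
      exact (hTst _ hi).mono (Nat.le_add_right _ _)
    · rw [if_neg hi] at hv
      exact hv.1
  have hlow : ∀ i : Fin (n - s * (k - 1)), s ≤ i.1 → ∀ v ∈ f i,
      ¬ IsStable s k (s * k + (i.1 - s)) v.1 := by
    intro i hi v hv
    simp only [hf] at hv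
    rw [if_neg (by omega : ¬ i.1 < s)] at hv
    have := hv.2
    have e : s * k + (i.1 + 1 - s) - 1 = s * k + (i.1 - s) := by omega
    rwa [e] at this
  have hdom : ∀ i j, i < j → ∀ u ∈ f i, ∃ v ∈ f j, (SK s k n).Adj u v := by
    intro i j hij u hu
    have hij' : i.1 < j.1 := hij
    have hjn := j.2
    by_cases hj : j.1 < s
    · have hu' : u.1 = T i.1 := by
        simp only [hf] at hu
        rw [if_pos (by omega : i.1 < s)] at hu
        exact hu
      refine ⟨⟨T j.1, (hTst _ hj).mono hn⟩, ?_, ?_⟩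
      · simp only [hf]
        rw [if_pos hj]
        rfl
      · apply adj_of hk
        rw [hu']
        exact hTd _ _ hij' hj
    · have hm : s * k < s * k + (j.1 + 1 - s) := by omega
      have h1 : IsStable s k (s * k + (j.1 - s)) u.1 := (hup i u hu).mono (by omega)
      have hmn : s * k + (j.1 + 1 - s) ≤ n := by omega
      have h2 : s * k + (j.1 + 1 - s) ∉ u.1 := by
        intro h3
        have := mem_Icc.1 (h1.sub h3)
        omega
      obtain ⟨c, hc, hcm, hd⟩ := exists_nb hs hk hm (h1.mono (by omega)) h2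
      have hC : InX s k _ (W k c) := inX_of_mem (hc.isStable (by omega) hk)
        (mem_W.2 ⟨k - 1, by omega, hcm⟩)
      refine ⟨⟨W k c, hC.1.mono hmn⟩, ?_, adj_of hk hd⟩
      simp only [hf]
      rw [if_neg hj]
      exact hC
  refine ⟨f, ?_, ?_, hdom⟩
  · intro i
    have hin := i.2
    by_cases hi : i.1 < s
    · have e : f i = {(⟨T i.1, (hTst _ hi).mono hn⟩ : {A : Finset ℕ // IsStable s k n A})} := by
        simp only [hf]
        rw [if_pos hi]
        ext v
        simp only [Set.mem_setOf_eq, Set.mem_singleton_iff]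
        exact ⟨fun h => Subtype.ext h, fun h => by rw [h]⟩
      rw [e]
      haveI : Nonempty ({(⟨T i.1, (hTst _ hi).mono hn⟩ : {A : Finset ℕ // IsStable s k n A})} :
          Set {A : Finset ℕ // IsStable s k n A}) := ⟨⟨_, rfl⟩⟩
      refine SimpleGraph.Connected.mk (fun u v => ?_)
      have : u = v := Subtype.ext (by rw [show u.1 = _ from u.2, show v.1 = _ from v.2])
      rw [this]
    · have e : f i = X s k n (s * k + (i.1 + 1 - s)) := by
        simp only [hf]
        rw [if_neg hi]
      rw [e]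
      exact X_connected hs hk (by omega) (by omega)
  · have hlt : ∀ i j : Fin (n - s * (k - 1)), i < j → Disjoint (f i) (f j) := by
      intro i j hij
      have hij' : i.1 < j.1 := hij
      rw [Set.disjoint_left]
      intro u hu hv
      by_cases hj : j.1 < s
      · simp only [hf] at hu hv
        rw [if_pos (by omega : i.1 < s)] at hu
        rw [if_pos hj] at hv
        have h1 : u.1 = T i.1 := hu
        have h2 : u.1 = T j.1 := hv
        have h3 := hTd _ _ hij' hj
        rw [← h1, ← h2, disjoint_self_iff_empty] at h3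
        have h4 := u.2.card
        rw [h3, card_empty] at h4
        omega
      · exact hlow j (by omega) u hv ((hup i u hu).mono (by omega))
    intro i j hij
    rcases lt_or_gt_of_ne hij with h | h
    · exact hlt i j h
    · exact (hlt j i h).symm

theorem colorable {s k n : ℕ} (hs : 1 ≤ s) (hk : 1 ≤ k) (hn : s * k ≤ n) :
    (SK s k n).Colorable (n - s * (k - 1)) := by
  have hk0 : s * k = s * (k - 1) + s := by
    obtain ⟨j, rfl⟩ : ∃ j, k = j + 1 := ⟨k - 1, by omega⟩
    simp only [Nat.add_sub_cancel]; ring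
  have hsn : s ≤ n := by omega
  have hne : ∀ A : {A : Finset ℕ // IsStable s k n A}, A.1.Nonempty := by
    intro A
    rw [← card_pos, A.2.card]; omega
  have hb : ∀ A : {A : Finset ℕ // IsStable s k n A}, A.1.min' (hne A) - 1 < n - s * (k - 1) := by
    intro A
    obtain ⟨a, ha, haA⟩ := A.2.exists_seq hk hsn
    have h0 : a 0 ∈ A.1 := by rw [haA]; exact mem_W.2 ⟨0, by omega, rfl⟩
    have h1 : A.1.min' (hne A) ≤ a 0 := A.1.min'_le _ h0
    have h2 : ∀ i, i < k → a 0 + i * s ≤ a i := by
      intro i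
      induction i with
      | zero => intro _; simp
      | succ i ih =>
        intro hi
        have h3 := ih (by omega)
        have h4 := ha.step i hi
        have e : (i + 1) * s = i * s + s := by ring
        omega
    have h3 := h2 (k - 1) (by omega)
    have h4 := ha.le
    have h5 : (k - 1) * s = s * (k - 1) := by ring
    have h6 := (mem_Icc.1 (A.2.sub (A.1.min'_mem (hne A)))).1
    omega
  refine ⟨SimpleGraph.Coloring.mk (fun A => (⟨A.1.min' (hne A) - 1, hb A⟩ : Fin _)) ?_⟩
  intro A B hAB he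
  have h1 : A.1.min' (hne A) - 1 = B.1.min' (hne B) - 1 := congrArg Fin.val he
  have h2 := A.1.min'_mem (hne A)
  have h3 := B.1.min'_mem (hne B)
  have h4 := (mem_Icc.1 (A.2.sub h2)).1
  have h5 := (mem_Icc.1 (B.2.sub h3)).1
  have h6 : A.1.min' (hne A) = B.1.min' (hne B) := by omega
  rw [h6] at h2
  exact (disjoint_left.1 hAB.2) h2 h3

end Pool.Agent.Q110.SK
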